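import Pool.Agent.Helper85_Idx.Stmts

/-! Squad IDX, module STAT. -/

set_option autoImplicit false

namespace Pool.Agent.Idx.H21

open Pool.Agent.Idx

/-! ### Positions of segments -/

section pos
variable (S : Setup) {V : Type} (m : ℕ)

lemma start_append (A B : List (Seg V S.T)) (i : ℕ) :
    start S m (A ++ B) (A.length + i) = start S m A A.length + start S m B i := by
  unfold start
  rw [List.take_length_add_append, List.map_append, List.sum_append, List.take_length]

lemma start_append_left (A B : List (Seg V S.T)) {i : ℕ} (hi : i ≤ A.length) :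
    start S m (A ++ B) i = start S m A i := by
  unfold start
  rw [List.take_append_of_le_length hi]

lemma start_total_append (A B : List (Seg V S.T)) :
    start S m (A ++ B) (A ++ B).length = start S m A A.length + start S m B B.length := by
  rw [List.length_append, start_append]

lemma start_total_single (x : Seg V S.T) : start S m [x] [x].length = slen S m x := by
  simp [start]

lemma word_length {h : V → Fin m → Bool} (segs : List (Seg V S.T)) :
    (word S h segs).length = start S m segs segs.length := by
  unfold word start
  rw [List.take_length, List.length_flatten, List.map_map]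
  congr 1
  refine List.map_congr_left fun x _ => ?_
  rcases x with ⟨e, b⟩ | u
  · cases b <;> simp [segw, slen]
  · simp [segw, slen]

/-- no payload is mismatched -/
def NM (χ : ℕ → Bool) (s : ℕ) (segs : List (Seg V S.T)) : Prop :=
  ∀ i i' e b, segs[i]? = some (Seg.pay e b) → segs[i']? = some (Seg.pay e (!b)) →
    (∀ j, start S m segs i ≤ j → j < start S m segs i + m → χ (s + j) = true) →
    (∀ j, start S m segs i' ≤ j → j < start S m segs i' + m → χ (s + j) = false) → False

lemma start_mid (A B C : List (Seg V S.T)) {i : ℕ} (hi : i < B.length) :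
    start S m (A ++ (B ++ C)) (A.length + i) = start S m A A.length + start S m B i := by
  rw [start_append, start_append_left S m B C hi.le]

lemma get_mid (A B C : List (Seg V S.T)) {i : ℕ} (hi : i < B.length) :
    (A ++ (B ++ C))[A.length + i]? = B[i]? := by
  rw [List.getElem?_append_right (Nat.le_add_right _ _), Nat.add_sub_cancel_left,
    List.getElem?_append_left hi]

lemma NM.mid {χ : ℕ → Bool} {s : ℕ} {A B C : List (Seg V S.T)}
    (h : NM S m χ s (A ++ (B ++ C))) : NM S m χ (s + start S m A A.length) B := by
  intro i i' e b hi hi' h1 h2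
  have li : i < B.length := by
    by_contra hc
    rw [List.getElem?_eq_none (not_lt.1 hc)] at hi
    cases hi
  have li' : i' < B.length := by
    by_contra hc
    rw [List.getElem?_eq_none (not_lt.1 hc)] at hi'
    cases hi'
  refine h (A.length + i) (A.length + i') e b ?_ ?_ ?_ ?_
  · rw [get_mid S A B C li]; exact hi
  · rw [get_mid S A B C li']; exact hi'
  · intro j hj1 hj2
    rw [start_mid S m A B C li] at hj1 hj2
    have := h1 (j - start S m A A.length) (by omega) (by omega)
    have e1 : s + start S m A A.length + (j - start S m A A.length) = s + j := by omega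
    rwa [e1] at this
  · intro j hj1 hj2
    rw [start_mid S m A B C li'] at hj1 hj2
    have := h2 (j - start S m A A.length) (by omega) (by omega)
    have e1 : s + start S m A A.length + (j - start S m A A.length) = s + j := by omega
    rwa [e1] at this

end pos

/-! ### Changes -/

/-- number of changes at `j, j + 1` with `a ≤ j < b` -/
def cc (χ : ℕ → Bool) (a b : ℕ) : ℕ := ((Finset.Ico a b).filter (fun j => χ j ≠ χ (j + 1))).card

lemma cc_add (χ : ℕ → Bool) {a b c : ℕ} (h1 : a ≤ b) (h2 : b ≤ c) :
    cc χ a b + cc χ b c = cc χ a c := by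
  unfold cc
  rw [← Finset.card_union_of_disjoint, ← Finset.filter_union, Finset.Ico_union_Ico_eq_Ico h1 h2]
  exact Finset.disjoint_filter_filter (Finset.Ico_disjoint_Ico_consecutive a b c)

lemma cc_const (χ : ℕ → Bool) {a b : ℕ} (h : cc χ a b = 0) : ∀ j, a ≤ j → j ≤ b → χ j = χ a := by
  unfold cc at h
  rw [Finset.card_eq_zero, Finset.filter_eq_empty_iff] at h
  intro j hj
  induction j, hj using Nat.le_induction with
  | base => intro _; rfl
  | succ j hj ih =>
    intro hjb
    have h1 := h (Finset.mem_Ico.2 ⟨hj, by omega⟩)
    simp only [ne_eq, not_not] at h1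
    rw [← h1]
    exact ih (by omega)

lemma chgI_eq (χ : ℕ → Bool) (s n : ℕ) : chgI χ s n = cc χ s (s + n - 1) := by
  unfold chgI cc
  congr 1
  ext j
  simp only [Finset.mem_filter, Finset.mem_Ico]
  constructor
  · rintro ⟨⟨h1, h2⟩, h3, h4⟩
    exact ⟨⟨h1, by omega⟩, h4⟩
  · rintro ⟨⟨h1, h2⟩, h4⟩
    exact ⟨⟨h1, by omega⟩, by omega, h4⟩

/-! ### The tree -/

section tree
variable (S : ZSetup) {V : Type} (m : ℕ)

/-- length of the word of a tree -/
def tl : BT V → ℕ
  | BT.leaf _ x => m + x.natAbs + m
  | BT.node _ l r => m + tl l + tl r + m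

lemma zw_length (x : ℤ) : (zw S.z S.z' x).length = x.natAbs := by simp [zw]

lemma start_tsegs (t : BT V) :
    start S.toSetup m (tsegs S.z S.z' t) (tsegs S.z S.z' t).length = tl m t := by
  induction t with
  | leaf e x =>
    simp [tsegs, start, tl, slen, zw_length]
    omega
  | node e l r ihl ihr =>
    have e1 : tsegs S.z S.z' (BT.node e l r)
        = [Seg.pay e false] ++ ((tsegs S.z S.z' l ++ tsegs S.z S.z' r) ++ [Seg.pay e true]) := rfl
    rw [e1, start_total_append, start_total_append, start_total_append, start_total_single,
      start_total_single, ihl, ihr]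
    simp only [slen, tl]
    omega

lemma tl_pos (t : BT V) : 2 * m ≤ tl m t := by
  cases t <;> simp only [tl] <;> omega

/-- edge of the root -/
def rootE : BT V → V
  | BT.leaf e _ => e
  | BT.node e _ _ => e

/-- the two occurrences of the edge of the root agree -/
lemma NM.root {χ : ℕ → Bool} {s : ℕ} {t : BT V} (h : NM S.toSetup m χ s (tsegs S.z S.z' t))
    {x y : Bool} (h1 : ∀ j, j < m → χ (s + j) = x)
    (h2 : ∀ j, tl m t - m ≤ j → j < tl m t → χ (s + j) = y) : x = y := by
  -- form of the list
  obtain ⟨M, hM⟩ : ∃ M : List (Seg V S.T), tsegs S.z S.z' t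
      = [Seg.pay (rootE t) false] ++ (M ++ [Seg.pay (rootE t) true]) := by
    cases t with
    | leaf e x => exact ⟨[Seg.con (zw S.z S.z' x)], rfl⟩
    | node e l r => exact ⟨tsegs S.z S.z' l ++ tsegs S.z S.z' r, rfl⟩
  have hlen := start_tsegs S m t
  rw [hM] at h hlen
  rw [start_total_append, start_total_append, start_total_single, start_total_single] at hlen
  simp only [slen] at hlen
  set q := rootE t
  have g0 : ([Seg.pay q false] ++ (M ++ [Seg.pay q true]) : List (Seg V S.T))[0]?
      = some (Seg.pay q false) := rfl
  have g1 : ([Seg.pay q false] ++ (M ++ [Seg.pay q true]) : List (Seg V S.T))[1 + M.length]?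
      = some (Seg.pay q true) := by
    rw [List.getElem?_append_right (by simp)]
    simp
  have s0 : start S.toSetup m ([Seg.pay q false] ++ (M ++ [Seg.pay q true]) : List (Seg V S.T)) 0
      = 0 := by simp [start]
  have s1 : start S.toSetup m ([Seg.pay q false] ++ (M ++ [Seg.pay q true]) : List (Seg V S.T))
      (1 + M.length) = tl m t - m := by
    have e1 := start_append S.toSetup m [Seg.pay q false] (M ++ [Seg.pay q true]) M.length
    rw [start_append_left S.toSetup m M _ le_rfl, start_total_single] at e1
    simp only [slen] at e1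
    have e2 : ([Seg.pay q false] : List (Seg V S.T)).length + M.length = 1 + M.length := rfl
    rw [e2] at e1
    rw [e1]
    omega
  have hmt : m ≤ tl m t := by omega
  by_contra hne
  cases x with
  | true =>
    have hy : y = false := by cases y <;> simp_all
    subst hy
    refine h 0 (1 + M.length) q false g0 g1 ?_ ?_
    · intro j _ hj
      rw [s0] at hj
      exact h1 j (by omega)
    · intro j hj hj'
      rw [s1] at hj hj'
      exact h2 j hj (by omega)
  | false =>
    have hy : y = true := by cases y <;> simp_all
    subst hy
    refine h (1 + M.length) 0 q true g1 g0 ?_ ?_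
    · intro j hj hj'
      rw [s1] at hj hj'
      exact h2 j hj (by omega)
    · intro j _ hj
      rw [s0] at hj
      exact h1 j (by omega)

lemma NM.left {χ : ℕ → Bool} {s : ℕ} {e : V} {l r : BT V}
    (h : NM S.toSetup m χ s (tsegs S.z S.z' (BT.node e l r))) :
    NM S.toSetup m χ (s + m) (tsegs S.z S.z' l) := by
  have e1 : tsegs S.z S.z' (BT.node e l r)
      = [Seg.pay e false] ++ (tsegs S.z S.z' l ++ (tsegs S.z S.z' r ++ [Seg.pay e true])) := by
    simp [tsegs]
  rw [e1] at h
  have h2 := NM.mid S.toSetup m h
  rwa [start_total_single] at h2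

lemma NM.right {χ : ℕ → Bool} {s : ℕ} {e : V} {l r : BT V}
    (h : NM S.toSetup m χ s (tsegs S.z S.z' (BT.node e l r))) :
    NM S.toSetup m χ (s + m + tl m l) (tsegs S.z S.z' r) := by
  have e1 : tsegs S.z S.z' (BT.node e l r)
      = ([Seg.pay e false] ++ tsegs S.z S.z' l) ++ (tsegs S.z S.z' r ++ [Seg.pay e true]) := by
    simp [tsegs]
  rw [e1] at h
  have h2 := NM.mid S.toSetup m h
  rw [start_total_append, start_total_single, start_tsegs] at h2
  simp only [slen] at h2
  rwa [← add_assoc] at h2

/-- changes in the two occurrences of the edge of the root -/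
def ac (χ : ℕ → Bool) (s : ℕ) (t : BT V) : ℕ :=
  min 1 (cc χ s (s + m - 1) + cc χ (s + tl m t - m) (s + tl m t - 1))

lemma stat_aux (hm : 1 ≤ m) (χ : ℕ → Bool) (Bd : ℤ) (t : BT V) : ∀ s : ℕ,
    (∀ x ∈ leaves t, x ≠ 0 ∧ |x| ≤ Bd) → NM S.toSetup m χ s (tsegs S.z S.z' t) →
    ∃ J : List (ℤ × BT V),
      J.length + ac m χ s t ≤ 3 * cc χ s (s + tl m t - 1) ∧
      (∀ x ∈ J, (x.1 = 1 ∨ x.1 = -1) ∧ x.2 ∈ subs t) ∧
      |lsum S m χ s t - ((if χ s = true then 1 else 0) * wt t
        + (J.map (fun x => x.1 * wt x.2)).sum)| ≤ cc χ s (s + tl m t - 1) * Bd := by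
  induction t with
  | leaf e x =>
    intro s hx _
    have hx1 := hx x (by simp [leaves])
    refine ⟨[], ?_, by simp, ?_⟩
    · -- count
      have hc1 := cc_add χ (a := s) (b := s + m - 1) (c := s + tl m (BT.leaf e x) - 1)
        (by omega) (by simp only [tl]; omega)
      have hc2 := cc_add χ (a := s) (b := s + tl m (BT.leaf e x) - m)
        (c := s + tl m (BT.leaf e x) - 1) (by simp only [tl]; omega) (by simp only [tl]; omega)
      simp only [List.length_nil, ac]
      omega
    · simp only [lsum, wt, leaves, List.sum_cons, List.sum_nil, add_zero, List.map_nil]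
      have hcard : (((Finset.Ico (s + m) (s + m + x.natAbs)).filter
          (fun j => χ j = true)).card) ≤ x.natAbs := by
        refine (Finset.card_filter_le _ _).trans ?_
        simp
      by_cases h0 : cc χ s (s + m + x.natAbs - 1) = 0
      · have hconst := cc_const χ h0
        have hnat : 1 ≤ x.natAbs := by
          have := Int.natAbs_pos.2 hx1.1
          omega
        have hB : 0 ≤ Bd := (abs_nonneg x).trans hx1.2
        refine le_trans (le_of_eq ?_) (mul_nonneg (Nat.cast_nonneg _) hB)
        rw [abs_eq_zero, sub_eq_zero]
        by_cases hs : χ s = true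
        · have : (Finset.Ico (s + m) (s + m + x.natAbs)).filter (fun j => χ j = true)
              = Finset.Ico (s + m) (s + m + x.natAbs) := by
            refine Finset.filter_true_of_mem fun j hj => ?_
            rw [Finset.mem_Ico] at hj
            rw [hconst j (by omega) (by omega), hs]
          rw [this, Nat.card_Ico, if_pos hs]
          have e1 : s + m + x.natAbs - (s + m) = x.natAbs := by omega
          rw [e1]
          split_ifs with hx0
          · rw [one_mul, one_mul]; omega
          · rw [one_mul]; omega
        · have : (Finset.Ico (s + m) (s + m + x.natAbs)).filter (fun j => χ j = true) = ∅ := by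
            refine Finset.filter_false_of_mem fun j hj => ?_
            rw [Finset.mem_Ico] at hj
            rw [hconst j (by omega) (by omega)]
            exact hs
          rw [this, if_neg hs]
          simp
      · have hpos : 1 ≤ cc χ s (s + tl m (BT.leaf e x) - 1) := by
          have hc1 := cc_add χ (a := s) (b := s + m + x.natAbs - 1)
            (c := s + tl m (BT.leaf e x) - 1) (by omega) (by simp only [tl]; omega)
          omega
        have hB : 0 ≤ Bd := (abs_nonneg x).trans hx1.2
        have herr : |(if 0 ≤ x then (1 : ℤ) else -1) * (((Finset.Ico (s + m)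
            (s + m + x.natAbs)).filter (fun j => χ j = true)).card : ℤ)
            - (if χ s = true then 1 else 0) * x| ≤ |x| := by
          set k := ((Finset.Ico (s + m) (s + m + x.natAbs)).filter (fun j => χ j = true)).card
          rw [abs_le]
          rcases le_or_gt 0 x with hx0 | hx0
          · rw [if_pos hx0, abs_of_nonneg hx0]
            split_ifs
            · constructor <;> omega
            · constructor <;> omega
          · rw [if_neg (not_le.2 hx0), abs_of_neg hx0]
            split_ifs
            · constructor <;> omega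
            · constructor <;> omega
        refine herr.trans (hx1.2.trans ?_)
        have : (1 : ℤ) ≤ cc χ s (s + tl m (BT.leaf e x) - 1) := by exact_mod_cast hpos
        nlinarith
  | node e l r ihl ihr =>
    intro s hx hNM
    have hxl : ∀ x ∈ leaves l, x ≠ 0 ∧ |x| ≤ Bd := fun x h => hx x (by simp [leaves, h])
    have hxr : ∀ x ∈ leaves r, x ≠ 0 ∧ |x| ≤ Bd := fun x h => hx x (by simp [leaves, h])
    obtain ⟨Jl, hl1, hl2, hl3⟩ := ihl (s + m) hxl (NM.left S m hNM)
    obtain ⟨Jr, hr1, hr2, hr3⟩ := ihr (s + m + tl m l) hxr (NM.right S m hNM)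
    have pl := tl_pos m l
    have pr := tl_pos m r
    have hB : 0 ≤ Bd := by
      have : ∃ x, x ∈ leaves l := by
        clear * -
        induction l with
        | leaf e x => exact ⟨x, by simp [leaves]⟩
        | node e l r ihl _ =>
          obtain ⟨x, hx⟩ := ihl
          exact ⟨x, by simp [leaves, hx]⟩
      obtain ⟨x, hx'⟩ := this
      exact (abs_nonneg x).trans (hxl x hx').2
    set sl' := s + m with hsl
    set sr := s + m + tl m l with hsr
    set su := s + m + tl m l + tl m r with hsu
    have hL : s + tl m (BT.node e l r) = su + m := by simp only [tl]; omega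
    -- additivity
    have c1 := cc_add χ (a := s) (b := sl') (c := sr - 1) (by omega) (by omega)
    have c2 := cc_add χ (a := s) (b := sr - 1) (c := sr) (by omega) (by omega)
    have c3 := cc_add χ (a := s) (b := sr) (c := su - 1) (by omega) (by omega)
    have c4 := cc_add χ (a := s) (b := su - 1) (c := su + m - 1) (by omega) (by omega)
    have d1 := cc_add χ (a := s) (b := s + m - 1) (c := sl') (by omega) (by omega)
    have d2 := cc_add χ (a := su - 1) (b := su) (c := su + m - 1) (by omega) (by omega)
    have esu : sr + tl m r - 1 = su - 1 := by omega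
    have hac : ac m χ s (BT.node e l r) ≤ cc χ s sl' + cc χ (su - 1) (su + m - 1) := by
      unfold ac
      rw [hL]
      have e1 : su + m - m = su := by omega
      rw [e1]
      omega
    rw [hL]
    -- corrections
    have hcl : (if χ sl' = true then (1 : ℤ) else 0) ≠ (if χ s = true then 1 else 0) →
        1 ≤ cc χ s sl' := by
      intro hne
      by_contra hc
      have h0 : cc χ s sl' = 0 := by omega
      apply hne
      rw [cc_const χ h0 sl' (by omega) le_rfl]
    have hcr : (if χ sr = true then (1 : ℤ) else 0) ≠ (if χ s = true then 1 else 0) →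
        1 ≤ cc χ s sl' + cc χ (su - 1) (su + m - 1) + ac m χ sr r := by
      intro hne
      by_contra hc
      have h01 : cc χ s sl' = 0 := by omega
      have h02 : cc χ (su - 1) (su + m - 1) = 0 := by omega
      have h03 : ac m χ sr r = 0 := by omega
      unfold ac at h03
      have h04 : cc χ sr (sr + m - 1) = 0 := by omega
      have h05 : cc χ (sr + tl m r - m) (sr + tl m r - 1) = 0 := by omega
      have k1 := cc_const χ h01
      have k2 := cc_const χ h02
      have k4 := cc_const χ h04
      have k5 := cc_const χ h05
      -- root of t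
      have q1 : χ s = χ (su - 1) := by
        refine NM.root S m hNM (x := χ s) (y := χ (su - 1)) ?_ ?_
        · intro j hj
          exact k1 (s + j) (by omega) (by omega)
        · intro j hj1 hj2
          exact k2 (s + j) (by omega) (by omega)
      have q2 : χ sr = χ (sr + tl m r - m) := by
        refine NM.root S m (NM.right S m hNM) (x := χ sr) (y := χ (sr + tl m r - m)) ?_ ?_
        · intro j hj
          exact k4 (sr + j) (by omega) (by omega)
        · intro j hj1 hj2
          exact k5 (sr + j) (by omega) (by omega)
      have q3 : χ (su - 1) = χ (sr + tl m r - m) := k5 (su - 1) (by omega) (by omega)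
      apply hne
      rw [q1, q3, q2]
    -- the corrections as lists
    obtain ⟨Cl, nl, ml, vl⟩ : ∃ Cl : List (ℤ × BT V), Cl.length ≤ cc χ s sl' ∧
        (∀ x ∈ Cl, (x.1 = 1 ∨ x.1 = -1) ∧ x.2 = l) ∧
        (Cl.map (fun x => x.1 * wt x.2)).sum = ((if χ sl' = true then (1 : ℤ) else 0)
          - (if χ s = true then 1 else 0)) * wt l := by
      by_cases hne : (if χ sl' = true then (1 : ℤ) else 0) = (if χ s = true then 1 else 0)
      · exact ⟨[], by simp, by simp, by simp [hne]⟩
      · refine ⟨[((if χ sl' = true then (1 : ℤ) else 0) - (if χ s = true then 1 else 0), l)],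
          by simpa using hcl hne, ?_, by simp⟩
        intro x hx
        rw [List.mem_singleton] at hx
        subst hx
        refine ⟨?_, rfl⟩
        revert hne
        split_ifs <;> simp
    obtain ⟨Cr, nr, mr, vr⟩ : ∃ Cr : List (ℤ × BT V),
        Cr.length ≤ cc χ s sl' + cc χ (su - 1) (su + m - 1) + ac m χ sr r ∧
        (∀ x ∈ Cr, (x.1 = 1 ∨ x.1 = -1) ∧ x.2 = r) ∧
        (Cr.map (fun x => x.1 * wt x.2)).sum = ((if χ sr = true then (1 : ℤ) else 0)
          - (if χ s = true then 1 else 0)) * wt r := by
      by_cases hne : (if χ sr = true then (1 : ℤ) else 0) = (if χ s = true then 1 else 0)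
      · exact ⟨[], by simp, by simp, by simp [hne]⟩
      · refine ⟨[((if χ sr = true then (1 : ℤ) else 0) - (if χ s = true then 1 else 0), r)],
          by simpa using hcr hne, ?_, by simp⟩
        intro x hx
        rw [List.mem_singleton] at hx
        subst hx
        refine ⟨?_, rfl⟩
        revert hne
        split_ifs <;> simp
    refine ⟨Jl ++ Jr ++ Cl ++ Cr, ?_, ?_, ?_⟩
    · simp only [List.length_append]
      omega
    · intro x hx
      simp only [List.mem_append] at hx
      have self : ∀ t : BT V, t ∈ subs t := by
        intro t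
        cases t <;> simp [subs]
      rcases hx with ((hx | hx) | hx) | hx
      · exact ⟨(hl2 x hx).1, by simp [subs, (hl2 x hx).2]⟩
      · exact ⟨(hr2 x hx).1, by simp [subs, (hr2 x hx).2]⟩
      · refine ⟨(ml x hx).1, ?_⟩
        rw [(ml x hx).2]
        simp [subs, self l]
      · refine ⟨(mr x hx).1, ?_⟩
        rw [(mr x hx).2]
        simp [subs, self r]
    · have hwt : wt (BT.node e l r) = wt l + wt r := by simp [wt, leaves]
      have hls : lsum S m χ s (BT.node e l r) = lsum S m χ sl' l + lsum S m χ sr r := by
        simp only [lsum]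
        rw [start_tsegs]
      simp only [List.map_append, List.sum_append, vl, vr, hwt, hls]
      have e1 : lsum S m χ sl' l + lsum S m χ sr r - ((if χ s = true then (1 : ℤ) else 0)
          * (wt l + wt r) + ((Jl.map (fun x => x.1 * wt x.2)).sum
          + (Jr.map (fun x => x.1 * wt x.2)).sum + ((if χ sl' = true then (1 : ℤ) else 0)
          - (if χ s = true then 1 else 0)) * wt l + ((if χ sr = true then (1 : ℤ) else 0)
          - (if χ s = true then 1 else 0)) * wt r))
          = (lsum S m χ sl' l - ((if χ sl' = true then (1 : ℤ) else 0) * wt l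
            + (Jl.map (fun x => x.1 * wt x.2)).sum))
          + (lsum S m χ sr r - ((if χ sr = true then (1 : ℤ) else 0) * wt r
            + (Jr.map (fun x => x.1 * wt x.2)).sum)) := by ring
      rw [e1]
      refine (abs_add_le _ _).trans ((add_le_add hl3 hr3).trans ?_)
      rw [← add_mul]
      refine mul_le_mul_of_nonneg_right ?_ hB
      have : cc χ sl' (sr - 1) + cc χ sr (su - 1) ≤ cc χ s (su + m - 1) := by
        omega
      exact_mod_cast this

end tree

theorem stat : StatStmt := by
  intro S V m χ t s Bd hm hx hNM
  obtain ⟨J, h1, h2, h3⟩ := stat_aux S m hm χ Bd t s hx hNM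
  have e1 : chgI χ s (start S.toSetup m (tsegs S.z S.z' t) (tsegs S.z S.z' t).length)
      = cc χ s (s + tl m t - 1) := by
    rw [start_tsegs, chgI_eq]
  refine ⟨if χ s = true then 1 else 0, J, ?_, ?_, h2, ?_⟩
  · split_ifs <;> simp
  · rw [e1]; omega
  · rw [e1]; exact h3

end Pool.Agent.Idx.H21
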