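import Pool.Agent.Helper21_Idx.Stat

/-! Squad IDX, module TCN. -/

set_option autoImplicit false

namespace Pool.Agent.Idx.H21

open Pool.Agent.Idx Filter Topology

section lists
variable {V : Type}

lemma plist (J : List (ℤ × BT V)) (W Q : ℝ)
    (hJ : ∀ x ∈ J, (x.1 = 1 ∨ x.1 = -1) ∧ ∃ i : ℕ, W / 2 ^ i ≤ (wt x.2 : ℝ) ∧
      (wt x.2 : ℝ) ≤ W / 2 ^ i + Q) :
    ∃ P : List (ℤ × ℕ), P.length = J.length ∧ (∀ y ∈ P, y.1 = 1 ∨ y.1 = -1) ∧
      |(((J.map (fun x => x.1 * wt x.2)).sum : ℤ) : ℝ)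
        - W * (P.map (fun x => (x.1 : ℝ) / 2 ^ x.2)).sum| ≤ J.length * Q := by
  induction J with
  | nil => exact ⟨[], rfl, by simp, by simp⟩
  | cons x J ih =>
    obtain ⟨P, h1, h2, h3⟩ := ih fun y hy => hJ y (List.mem_cons_of_mem _ hy)
    obtain ⟨hx, i, hi1, hi2⟩ := hJ x (List.mem_cons_self)
    refine ⟨(x.1, i) :: P, by simp [h1], ?_, ?_⟩
    · intro y hy
      rcases List.mem_cons.1 hy with rfl | hy
      · exact hx
      · exact h2 y hy
    · simp only [List.map_cons, List.sum_cons, List.length_cons]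
      push_cast
      have e1 : (x.1 : ℝ) * (wt x.2 : ℝ) + (((J.map (fun x => x.1 * wt x.2)).sum : ℤ) : ℝ)
          - W * ((x.1 : ℝ) / 2 ^ i + (P.map (fun x => (x.1 : ℝ) / 2 ^ x.2)).sum)
          = (x.1 : ℝ) * ((wt x.2 : ℝ) - W / 2 ^ i)
            + ((((J.map (fun x => x.1 * wt x.2)).sum : ℤ) : ℝ)
              - W * (P.map (fun x => (x.1 : ℝ) / 2 ^ x.2)).sum) := by
        ring
      push_cast at e1 h3
      rw [e1]
      have e2 : |(x.1 : ℝ) * ((wt x.2 : ℝ) - W / 2 ^ i)| ≤ Q := by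
        have h4 : |(wt x.2 : ℝ) - W / 2 ^ i| ≤ Q := by
          rw [abs_le]
          constructor <;> linarith
        rw [abs_mul]
        rcases hx with h | h <;> rw [h] <;> simpa using h4
      refine (abs_add_le _ _).trans ?_
      linarith

lemma qlist (J : List (ℤ × BT V)) (W Q : ℝ)
    (hJ : ∀ x ∈ J, (x.1 = 1 ∨ x.1 = -1) ∧ ∃ r i : ℕ, r ≤ i ∧ W * (2 ^ r / 3 ^ i) ≤ -(wt x.2 : ℝ) ∧
      -(wt x.2 : ℝ) ≤ W * (2 ^ r / 3 ^ i) + Q) :
    ∃ P : List (ℤ × ℕ × ℕ), P.length = J.length ∧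
      (∀ y ∈ P, (y.1 = 1 ∨ y.1 = -1) ∧ y.2.1 ≤ y.2.2) ∧
      |-(((J.map (fun x => x.1 * wt x.2)).sum : ℤ) : ℝ)
        - W * (P.map (fun x => (x.1 : ℝ) * 2 ^ x.2.1 / 3 ^ x.2.2)).sum| ≤ J.length * Q := by
  induction J with
  | nil => exact ⟨[], rfl, by simp, by simp⟩
  | cons x J ih =>
    obtain ⟨P, h1, h2, h3⟩ := ih fun y hy => hJ y (List.mem_cons_of_mem _ hy)
    obtain ⟨hx, r, i, hri, hi1, hi2⟩ := hJ x (List.mem_cons_self)
    refine ⟨(x.1, r, i) :: P, by simp [h1], ?_, ?_⟩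
    · intro y hy
      rcases List.mem_cons.1 hy with rfl | hy
      · exact ⟨hx, hri⟩
      · exact h2 y hy
    · simp only [List.map_cons, List.sum_cons, List.length_cons]
      push_cast
      have e1 : -((x.1 : ℝ) * (wt x.2 : ℝ) + (((J.map (fun x => x.1 * wt x.2)).sum : ℤ) : ℝ))
          - W * ((x.1 : ℝ) * 2 ^ r / 3 ^ i
            + (P.map (fun x => (x.1 : ℝ) * 2 ^ x.2.1 / 3 ^ x.2.2)).sum)
          = (x.1 : ℝ) * (-(wt x.2 : ℝ) - W * (2 ^ r / 3 ^ i))
            + (-(((J.map (fun x => x.1 * wt x.2)).sum : ℤ) : ℝ)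
              - W * (P.map (fun x => (x.1 : ℝ) * 2 ^ x.2.1 / 3 ^ x.2.2)).sum) := by
        ring
      push_cast at e1 h3
      rw [e1]
      have e2 : |(x.1 : ℝ) * (-(wt x.2 : ℝ) - W * (2 ^ r / 3 ^ i))| ≤ Q := by
        have h4 : |-(wt x.2 : ℝ) - W * (2 ^ r / 3 ^ i)| ≤ Q := by
          rw [abs_le]
          constructor <;> linarith
        rw [abs_mul]
        rcases hx with h | h <;> rw [h] <;> simpa using h4
      refine (abs_add_le _ _).trans ?_
      linarith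

end lists

section sums
variable (S : ZSetup) {V : Type} (m : ℕ) (χ : ℕ → Bool)

lemma lsum_eq (t : BT V) : ∀ s, lsum S m χ s t = (leafPos S m χ s t : ℤ) - leafNeg S m χ s t := by
  induction t with
  | leaf e x =>
    intro s
    simp only [lsum, leafPos, leafNeg]
    split_ifs <;> simp
  | node e l r ihl ihr =>
    intro s
    simp only [lsum, leafPos, leafNeg]
    rw [ihl, ihr]
    push_cast
    ring

lemma leafNeg_zero (t : BT V) (ht : ∀ x ∈ leaves t, 0 < x) : ∀ s, leafNeg S m χ s t = 0 := by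
  induction t with
  | leaf e x =>
    intro s
    have := ht x (by simp [leaves])
    simp only [leafNeg]
    rw [if_pos this.le]
  | node e l r ihl ihr =>
    intro s
    simp only [leafNeg]
    rw [ihl (fun x h => ht x (by simp [leaves, h])), ihr (fun x h => ht x (by simp [leaves, h]))]

lemma leafPos_zero (t : BT V) (ht : ∀ x ∈ leaves t, x < 0) : ∀ s, leafPos S m χ s t = 0 := by
  induction t with
  | leaf e x =>
    intro s
    have := ht x (by simp [leaves])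
    simp only [leafPos]
    rw [if_neg (not_le.2 this)]
  | node e l r ihl ihr =>
    intro s
    simp only [leafPos]
    rw [ihl (fun x h => ht x (by simp [leaves, h])), ihr (fun x h => ht x (by simp [leaves, h]))]

lemma abs_lsum_leaf (e : V) (x : ℤ) (s : ℕ) : |lsum S m χ s (BT.leaf e x)| ≤ |x| := by
  have hcard : (((Finset.Ico (s + m) (s + m + x.natAbs)).filter
      (fun j => χ j = true)).card) ≤ x.natAbs := by
    refine (Finset.card_filter_le _ _).trans ?_
    simp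
  simp only [lsum]
  set k := ((Finset.Ico (s + m) (s + m + x.natAbs)).filter (fun j => χ j = true)).card
  have h2 : (k : ℤ) ≤ |x| := by
    rw [Int.abs_eq_natAbs]
    exact_mod_cast hcard
  rw [abs_mul]
  split_ifs
  · rw [abs_one, one_mul, Nat.abs_cast]; exact h2
  · rw [abs_neg, abs_one, one_mul, Nat.abs_cast]; exact h2

lemma chgI_le {s n N : ℕ} (h : s + n ≤ N) : chgI χ s n ≤ chg χ N := by
  unfold chgI chg
  refine Finset.card_le_card fun j hj => ?_
  simp only [Finset.mem_filter, Finset.mem_Ico, Finset.mem_range] at hj ⊢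
  exact ⟨by omega, hj.2.2⟩

end sums

theorem tcn_aux (hStat : StatStmt) (hTred : TredStmt) (hTsum : TsumStmt) (S : ZSetup)
    (R Dc C : ℕ) (hR : 1 ≤ R) (δ : ℝ)
    (hcomp : ∀ (a b : ℤ) (P : List (ℤ × ℕ)) (Q : List (ℤ × ℕ × ℕ)), (a = 0 ∨ a = 1) →
      (b = 0 ∨ b = 1) → P.length ≤ 3 * Dc → Q.length ≤ 3 * Dc → (∀ x ∈ P, x.1 = 1 ∨ x.1 = -1) →
      (∀ x ∈ Q, (x.1 = 1 ∨ x.1 = -1) ∧ x.2.1 ≤ x.2.2) →
      1 / (4 * (R : ℝ)) ≤ (a : ℝ) + (P.map (fun x => (x.1 : ℝ) / 2 ^ x.2)).sum →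
      (a : ℝ) + (P.map (fun x => (x.1 : ℝ) / 2 ^ x.2)).sum ≤ 3 / 4 →
      δ ≤ |((a : ℝ) + (P.map (fun x => (x.1 : ℝ) / 2 ^ x.2)).sum) -
        ((b : ℝ) + (Q.map (fun x => (x.1 : ℝ) * 2 ^ x.2.1 / 3 ^ x.2.2)).sum)|)
    (M : ℝ) (hM : M = 10 * Dc + 2 * C + 3) (d : ℕ) (hd1 : 1 ≤ d) (q : ℝ)
    (hqdef : q = (2 / 3 : ℝ) ^ d) (hq0 : 0 < q) (hq1 : M * q < δ)
    (hq2 : M * q < 1 / (4 * (R : ℝ))) (m : ℕ) (hm : 1 ≤ m)
    (h : Fin 3 × (Fin d → Option Bool) → Fin m → Bool) (χ : ℕ → Bool)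
    (hchg : chg χ (word S.toSetup h (tseg S d)).length ≤ Dc)
    (hlow : 1 ≤ (∑ j ∈ (Finset.range (word S.toSetup h (tseg S d)).length).filter
      (fun j => χ j = true), tmu S d m h j) * (2 * R))
    (hup : ∑ j ∈ (Finset.range (word S.toSetup h (tseg S d)).length).filter
      (fun j => χ j = true), tmu S d m h j ≤ 1 / 2)
    (hmis : ¬ Mism S.toSetup m (tseg S d) χ)
    (hvat : |∑ j ∈ (Finset.range (word S.toSetup h (tseg S d)).length).filter
      (fun j => χ j = true), vat S.v (word S.toSetup h (tseg S d)) j|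
        ≤ C * ((2 * 3 ^ (2 ^ (d + 1) + 1) * 4 ^ d : ℕ) : ℤ)) : False := by
  obtain ⟨t1, t2, t3, t4, t5, t6, t7, t8⟩ := hTsum d hd1
  set Q : ℝ := ((QQ d : ℤ) : ℝ) with hQ
  have hQ1 : 1 ≤ Q := by
    have : (1 : ℤ) ≤ QQ d := by unfold QQ; exact one_le_pow₀ (by norm_num)
    rw [hQ]
    exact_mod_cast this
  set W : ℝ := Q * 6 ^ d with hW
  have hW0 : 0 < W := by positivity
  -- the segments
  set N : ℕ := (word S.toSetup h (tseg S d)).length with hN
  set x3 : ℤ := -(wt (tp d) + wt (tm d)) with hx3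
  set T3 : BT (Fin 3 × (Fin d → Option Bool)) := BT.leaf (ename d 2 []) x3 with hT3
  have hfor : forest d = [tp d, tm d, T3] := rfl
  have hseg : tseg S d = [] ++ (tsegs S.z S.z' (tp d)
      ++ (tsegs S.z S.z' (tm d) ++ tsegs S.z S.z' T3)) := by
    unfold tseg fsegs
    rw [hfor]
    simp
  have hNlen : N = tl m (tp d) + (tl m (tm d) + tl m T3) := by
    rw [hN, word_length, hseg, List.nil_append, start_total_append, start_total_append,
      start_tsegs, start_tsegs, start_tsegs]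
  have hNM : NM S.toSetup m χ 0 (tseg S d) := by
    intro i i' e b h1 h2 h3 h4
    refine hmis ⟨e, b, i, i', h1, h2, ?_, ?_⟩
    · intro j hj1 hj2
      have := h3 j hj1 hj2
      rwa [zero_add] at this
    · intro j hj1 hj2
      have := h4 j hj1 hj2
      rwa [zero_add] at this
  have hNMp : NM S.toSetup m χ 0 (tsegs S.z S.z' (tp d)) := by
    rw [hseg] at hNM
    have := NM.mid S.toSetup m hNM
    simpa [start] using this
  have hNMm : NM S.toSetup m χ (tl m (tp d)) (tsegs S.z S.z' (tm d)) := by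
    rw [hseg, List.nil_append] at hNM
    have := NM.mid S.toSetup m hNM
    rwa [start_tsegs, zero_add] at this
  -- leaves
  have hBd : ∀ t ∈ forest d, ∀ x ∈ leaves t, x ≠ 0 ∧ |x| ≤ 2 * QQ d * 4 ^ d := by
    intro t ht x hx
    exact t6 x (List.mem_flatten.2 ⟨leaves t, List.mem_map.2 ⟨t, ht, rfl⟩, hx⟩)
  obtain ⟨a, J, ha, hJ1, hJ2, hJ3⟩ := hStat S _ m χ (tp d) 0 (2 * QQ d * 4 ^ d) hm
    (hBd (tp d) (by rw [hfor]; simp)) hNMp
  obtain ⟨b, J', hb, hJ1', hJ2', hJ3'⟩ := hStat S _ m χ (tm d) (tl m (tp d)) (2 * QQ d * 4 ^ d) hm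
    (hBd (tm d) (by rw [hfor]; simp)) hNMm
  rw [start_tsegs] at hJ1 hJ3 hJ1' hJ3'
  have hch1 : chgI χ 0 (tl m (tp d)) ≤ Dc := (chgI_le χ (by omega)).trans hchg
  have hch2 : chgI χ (tl m (tp d)) (tl m (tm d)) ≤ Dc := (chgI_le χ (by omega)).trans hchg
  -- sums over the positions
  have htp0 : 0 < (wt (tp d) : ℝ) := by
    have h1 : (QQ d * 6 ^ d : ℤ) ≤ wt (tp d) := t3.1
    have h2 : W ≤ (wt (tp d) : ℝ) := by
      rw [hW, hQ]
      exact_mod_cast h1
    linarith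
  set sp : ℤ := lsum S m χ 0 (tp d) with hsp
  set sm : ℤ := lsum S m χ (tl m (tp d)) (tm d) with hsm
  set s2 : ℕ := start S.toSetup m (fsegs S.z S.z' ((forest d).take 2))
        (fsegs S.z S.z' ((forest d).take 2)).length with hs2
  have hx3neg : x3 < 0 := by
    have := t5.1
    rw [hx3]
    omega
  have hstart1 : start S.toSetup m (fsegs S.z S.z' ((forest d).take 1))
      (fsegs S.z S.z' ((forest d).take 1)).length = tl m (tp d) := by
    have e1 : fsegs S.z S.z' ((forest d).take 1) = tsegs S.z S.z' (tp d) := by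
      rw [hfor]
      simp [fsegs]
    rw [e1, start_tsegs]
  have hstart0 : start S.toSetup m (fsegs S.z S.z' ((forest d).take 0))
      (fsegs S.z S.z' ((forest d).take 0)).length = 0 := by
    simp [fsegs, start]
  have hmass : ∑ j ∈ (Finset.range N).filter (fun j => χ j = true), tmu S d m h j
      = (sp : ℝ) / wt (tp d) := by
    have h1 := hTred S _ (forest d) m h χ (tom S d)
      (by intro x; unfold tom; rw [S.vp]; simp) (by intro x; unfold tom; rw [S.vn]; simp)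
    have h2 : ∑ j ∈ (Finset.range N).filter (fun j => χ j = true), tmu S d m h j
        = ∑ j ∈ (Finset.range (word S.toSetup h (fsegs S.z S.z' (forest d))).length).filter
      (fun j => χ j = true), ((word S.toSetup h (fsegs S.z S.z' (forest d)))[j]?).elim 0
        (tom S d) := rfl
    rw [h2, h1]
    have hlen : (forest d).length = 3 := rfl
    rw [hlen, Finset.sum_range_succ, Finset.sum_range_succ, Finset.sum_range_succ,
      Finset.sum_range_zero, hstart0, hstart1]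
    have g0 : (forest d)[0]? = some (tp d) := rfl
    have g1 : (forest d)[1]? = some (tm d) := rfl
    have g2 : (forest d)[2]? = some T3 := rfl
    rw [g0, g1, g2]
    simp only [Option.elim_some]
    have w1 : tom S d S.z = 1 / wt (tp d) := by unfold tom; rw [S.vz]; simp
    have w2 : tom S d S.z' = 0 := by unfold tom; rw [S.vz']; simp
    have w3 : leafPos S m χ (tl m (tp d)) (tm d) = 0 := leafPos_zero S m χ _ t8 _
    have w4 : leafPos S m χ s2 T3 = 0 := leafPos_zero S m χ _ (by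
      intro x hx
      rw [hT3] at hx
      simp only [leaves, List.mem_singleton] at hx
      rw [hx]; exact hx3neg) _
    have w5 : (leafPos S m χ 0 (tp d) : ℝ) = (sp : ℝ) := by
      have h5 := lsum_eq S m χ (tp d) 0
      rw [leafNeg_zero S m χ _ t7 0] at h5
      rw [hsp, h5]
      push_cast
      ring
    rw [w1, w2, w3, w4, w5]
    simp
    ring
  have hvs : |(sp : ℝ) + sm| ≤ C * (2 * Q * 4 ^ d) + Q := by
    have h1 := hTred S _ (forest d) m h χ (fun t => (S.v t : ℝ))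
      (by intro x; rw [S.vp]; simp)
      (by intro x; rw [S.vn]; simp)
    have h2 : ((∑ j ∈ (Finset.range N).filter (fun j => χ j = true),
        vat S.v (word S.toSetup h (tseg S d)) j : ℤ) : ℝ)
        = ∑ j ∈ (Finset.range (word S.toSetup h (fsegs S.z S.z' (forest d))).length).filter
      (fun j => χ j = true), ((word S.toSetup h (fsegs S.z S.z' (forest d)))[j]?).elim 0
        (fun t => (S.v t : ℝ)) := by
      rw [Int.cast_sum]
      refine Finset.sum_congr rfl fun j _ => ?_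
      unfold vat tseg
      cases (word S.toSetup h (fsegs S.z S.z' (forest d)))[j]? <;> simp
    rw [h1] at h2
    have hlen : (forest d).length = 3 := rfl
    rw [hlen, Finset.sum_range_succ, Finset.sum_range_succ, Finset.sum_range_succ,
      Finset.sum_range_zero, hstart0, hstart1] at h2
    have g0 : (forest d)[0]? = some (tp d) := rfl
    have g1 : (forest d)[1]? = some (tm d) := rfl
    have g2 : (forest d)[2]? = some T3 := rfl
    rw [g0, g1, g2] at h2
    simp only [Option.elim_some, S.vz, S.vz'] at h2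
    rw [← hs2] at h2
    set s3 : ℤ := lsum S m χ s2 T3 with hs3
    have e0 : ((leafPos S m χ 0 (tp d) : ℕ) : ℝ) - ((leafNeg S m χ 0 (tp d) : ℕ) : ℝ) = sp := by
      rw [hsp, lsum_eq]; push_cast; ring
    have e1 : ((leafPos S m χ (tl m (tp d)) (tm d) : ℕ) : ℝ)
        - ((leafNeg S m χ (tl m (tp d)) (tm d) : ℕ) : ℝ) = sm := by
      rw [hsm, lsum_eq]; push_cast; ring
    have e2 : ((leafPos S m χ s2 T3 : ℕ) : ℝ) - ((leafNeg S m χ s2 T3 : ℕ) : ℝ) = s3 := by
      rw [hs3, lsum_eq]; push_cast; ring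
    push_cast at h2
    have h3 : ((∑ j ∈ (Finset.range N).filter (fun j => χ j = true),
        vat S.v (word S.toSetup h (tseg S d)) j : ℤ) : ℝ) = sp + sm + s3 := by
      push_cast
      rw [h2]
      linarith
    have h4 : |(sp : ℝ) + sm + s3| ≤ C * (2 * Q * 4 ^ d) := by
      rw [← h3]
      have h5 : (|∑ j ∈ (Finset.range N).filter (fun j => χ j = true),
        vat S.v (word S.toSetup h (tseg S d)) j| : ℤ)
          ≤ ((C * (2 * 3 ^ (2 ^ (d + 1) + 1) * 4 ^ d) : ℕ) : ℤ) := by exact_mod_cast hvat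
      have h6 : ((|∑ j ∈ (Finset.range N).filter (fun j => χ j = true),
        vat S.v (word S.toSetup h (tseg S d)) j| : ℤ) : ℝ)
          ≤ (((C * (2 * 3 ^ (2 ^ (d + 1) + 1) * 4 ^ d) : ℕ) : ℤ) : ℝ) := by exact_mod_cast h5
      rw [Int.cast_abs] at h6
      refine h6.trans (le_of_eq ?_)
      rw [hQ]
      unfold QQ
      push_cast
      ring
    have h5 : |(s3 : ℝ)| ≤ Q := by
      have h6 := abs_lsum_leaf S m χ (ename d 2 [] : Fin 3 × (Fin d → Option Bool)) x3 s2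
      have h7 : |x3| ≤ QQ d := by
        rw [abs_of_neg hx3neg, hx3]
        have := t5.2
        omega
      have h8 : |s3| ≤ QQ d := h6.trans h7
      rw [hQ, ← Int.cast_abs]
      exact_mod_cast h8
    have h6 : (sp : ℝ) + sm = (sp + sm + s3) - s3 := by ring
    rw [h6]
    exact (abs_sub _ _).trans (add_le_add h4 h5)
  -- weights of the subtrees
  have hP : ∀ x ∈ J, (x.1 = 1 ∨ x.1 = -1) ∧ ∃ i : ℕ, W / 2 ^ i ≤ (wt x.2 : ℝ) ∧
      (wt x.2 : ℝ) ≤ W / 2 ^ i + Q := by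
    intro x hx
    refine ⟨(hJ2 x hx).1, ?_⟩
    obtain ⟨i, hi, k1, k2⟩ := t1 x.2 (hJ2 x hx).2
    have e1 : W / 2 ^ i = Q * (3 ^ d * 2 ^ (d - i)) := by
      rw [hW, div_eq_iff (by positivity)]
      have : (6 : ℝ) ^ d = 3 ^ d * (2 ^ (d - i) * 2 ^ i) := by
        rw [← pow_add, Nat.sub_add_cancel hi, ← mul_pow]
        norm_num
      rw [this]
      ring
    refine ⟨i, ?_, ?_⟩
    · rw [e1, hQ]
      exact_mod_cast k1
    · rw [e1, hQ]
      exact_mod_cast k2
  have hP' : ∀ x ∈ J', (x.1 = 1 ∨ x.1 = -1) ∧ ∃ r i : ℕ, r ≤ i ∧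
      W * (2 ^ r / 3 ^ i) ≤ -(wt x.2 : ℝ) ∧ -(wt x.2 : ℝ) ≤ W * (2 ^ r / 3 ^ i) + Q := by
    intro x hx
    refine ⟨(hJ2' x hx).1, ?_⟩
    obtain ⟨i, hi, r, hr, k1, k2⟩ := t2 x.2 (hJ2' x hx).2
    have e1 : W * (2 ^ r / 3 ^ i) = Q * (2 ^ (d + r) * 3 ^ (d - i)) := by
      have : (6 : ℝ) ^ d = 2 ^ d * (3 ^ (d - i) * 3 ^ i) := by
        rw [← pow_add, Nat.sub_add_cancel hi, ← mul_pow]
        norm_num
      rw [hW, this, pow_add]
      field_simp
    refine ⟨r, i, hr, ?_, ?_⟩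
    · rw [e1, hQ]
      exact_mod_cast k1
    · rw [e1, hQ]
      exact_mod_cast k2
  obtain ⟨P, hP1, hP2, hP3⟩ := plist J W Q hP
  obtain ⟨P', hP1', hP2', hP3'⟩ := qlist J' W Q hP'
  set X : ℝ := (P.map (fun x => (x.1 : ℝ) / 2 ^ x.2)).sum with hX
  set Y : ℝ := (P'.map (fun x => (x.1 : ℝ) * 2 ^ x.2.1 / 3 ^ x.2.2)).sum with hY
  set j1 : ℤ := (J.map (fun x => x.1 * wt x.2)).sum with hj1
  set j2 : ℤ := (J'.map (fun x => x.1 * wt x.2)).sum with hj2
  have hDc0 : (0 : ℝ) ≤ Dc := Nat.cast_nonneg _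
  have hPl : P.length ≤ 3 * Dc := by rw [hP1]; omega
  have hPl' : P'.length ≤ 3 * Dc := by rw [hP1']; omega
  have k1 : |(sp : ℝ) - (a * wt (tp d) + j1)| ≤ Dc * (2 * Q * 4 ^ d) := by
    have e1 : ((|sp - (a * wt (tp d) + j1)| : ℤ) : ℝ)
        ≤ ((chgI χ 0 (tl m (tp d)) * (2 * QQ d * 4 ^ d) : ℤ) : ℝ) := by exact_mod_cast hJ3
    rw [Int.cast_abs] at e1
    push_cast at e1
    refine e1.trans ?_
    have e2 : (chgI χ 0 (tl m (tp d)) : ℝ) ≤ Dc := by exact_mod_cast hch1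
    exact mul_le_mul_of_nonneg_right e2 (by positivity)
  have k2 : |(sm : ℝ) - (b * wt (tm d) + j2)| ≤ Dc * (2 * Q * 4 ^ d) := by
    have e1 : ((|sm - (b * wt (tm d) + j2)| : ℤ) : ℝ)
        ≤ ((chgI χ (tl m (tp d)) (tl m (tm d)) * (2 * QQ d * 4 ^ d) : ℤ) : ℝ) := by
      exact_mod_cast hJ3'
    rw [Int.cast_abs] at e1
    push_cast at e1
    refine e1.trans ?_
    have e2 : (chgI χ (tl m (tp d)) (tl m (tm d)) : ℝ) ≤ Dc := by exact_mod_cast hch2
    exact mul_le_mul_of_nonneg_right e2 (by positivity)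
  have k3 : |(wt (tp d) : ℝ) - W| ≤ Q := by
    have h1 : (Q * 6 ^ d : ℝ) ≤ wt (tp d) := by rw [hQ]; exact_mod_cast t3.1
    have h2 : (wt (tp d) : ℝ) ≤ Q * 6 ^ d + Q := by rw [hQ]; exact_mod_cast t3.2
    rw [abs_le]
    constructor <;> rw [hW] <;> linarith
  have k4 : |-(wt (tm d) : ℝ) - W| ≤ Q := by
    have h1 : (Q * 6 ^ d : ℝ) ≤ -wt (tm d) := by rw [hQ]; exact_mod_cast t4.1
    have h2 : -(wt (tm d) : ℝ) ≤ Q * 6 ^ d + Q := by rw [hQ]; exact_mod_cast t4.2
    rw [abs_le]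
    constructor <;> rw [hW] <;> linarith
  have hJl : (J.length : ℝ) * Q ≤ 3 * Dc * Q := by
    refine mul_le_mul_of_nonneg_right ?_ (by linarith)
    have : J.length ≤ 3 * Dc := by omega
    exact_mod_cast this
  have hJl' : (J'.length : ℝ) * Q ≤ 3 * Dc * Q := by
    refine mul_le_mul_of_nonneg_right ?_ (by linarith)
    have : J'.length ≤ 3 * Dc := by omega
    exact_mod_cast this
  have ha' : |(a : ℝ) * (wt (tp d) - W)| ≤ Q := by
    rw [abs_mul]
    rcases ha with h0 | h0 <;> rw [h0]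
    · simp; linarith
    · simpa using k3
  have hb' : |(b : ℝ) * (-(wt (tm d) : ℝ) - W)| ≤ Q := by
    rw [abs_mul]
    rcases hb with h0 | h0 <;> rw [h0]
    · simp; linarith
    · simpa using k4
  -- Q = W / 6 ^ d and so on
  have hqW : Q * 4 ^ d = W * q := by
    rw [hW, hqdef]
    have : (6 : ℝ) ^ d * (2 / 3 : ℝ) ^ d = 4 ^ d := by
      rw [← mul_pow]; norm_num
    rw [mul_assoc, this]
  have hQq : Q ≤ W * q := by
    rw [← hqW]
    have : (1 : ℝ) ≤ 4 ^ d := one_le_pow₀ (by norm_num)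
    exact le_mul_of_one_le_right (by linarith) this
  have m1 : |(sp : ℝ) - W * (a + X)| ≤ (5 * Dc + 1) * (W * q) := by
    have e1 : (sp : ℝ) - W * (a + X) = ((sp : ℝ) - (a * wt (tp d) + j1))
        + ((j1 : ℝ) - W * X) + (a : ℝ) * (wt (tp d) - W) := by ring
    rw [e1]
    refine (abs_add_three _ _ _).trans ?_
    have e2 : (Dc : ℝ) * (2 * Q * 4 ^ d) = 2 * Dc * (W * q) := by rw [← hqW]; ring
    have e3 : 3 * (Dc : ℝ) * Q ≤ 3 * Dc * (W * q) := mul_le_mul_of_nonneg_left hQq (by positivity)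
    linarith [hP3]
  have m2 : |-(sm : ℝ) - W * (b + Y)| ≤ (5 * Dc + 1) * (W * q) := by
    have e1 : -(sm : ℝ) - W * (b + Y) = -((sm : ℝ) - (b * wt (tm d) + j2))
        + (-(j2 : ℝ) - W * Y) + (b : ℝ) * (-(wt (tm d) : ℝ) - W) := by ring
    rw [e1]
    refine (abs_add_three _ _ _).trans ?_
    rw [abs_neg]
    have e2 : (Dc : ℝ) * (2 * Q * 4 ^ d) = 2 * Dc * (W * q) := by rw [← hqW]; ring
    have e3 : 3 * (Dc : ℝ) * Q ≤ 3 * Dc * (W * q) := mul_le_mul_of_nonneg_left hQq (by positivity)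
    linarith [hP3']
  have m3 : |(sp : ℝ) + sm| ≤ (2 * C + 1) * (W * q) := by
    refine hvs.trans ?_
    have e2 : (C : ℝ) * (2 * Q * 4 ^ d) = 2 * C * (W * q) := by rw [← hqW]; ring
    rw [e2]
    linarith
  -- the distance
  have hdist : |((a : ℝ) + X) - (b + Y)| < δ := by
    have e1 : W * (((a : ℝ) + X) - (b + Y)) = -((sp : ℝ) - W * (a + X))
        + (-(sm : ℝ) - W * (b + Y)) + ((sp : ℝ) + sm) := by ring
    have e2 : |W * (((a : ℝ) + X) - (b + Y))| ≤ M * (W * q) := by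
      rw [e1]
      refine (abs_add_three _ _ _).trans ?_
      rw [abs_neg, hM]
      linarith
    rw [abs_mul, abs_of_pos hW0] at e2
    have e3 : M * (W * q) = W * (M * q) := by ring
    rw [e3] at e2
    exact lt_of_le_of_lt (le_of_mul_le_mul_left e2 hW0) hq1
  have hrng : |(sp : ℝ) / W - (a + X)| ≤ (5 * Dc + 1) * q := by
    have e1 : (sp : ℝ) / W - (a + X) = ((sp : ℝ) - W * (a + X)) / W := by
      field_simp
    rw [e1, abs_div, abs_of_pos hW0, div_le_iff₀ hW0]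
    refine m1.trans (le_of_eq ?_)
    ring
  have hMq : (5 * Dc + 1) * q ≤ M * q - q := by
    have : (5 * (Dc : ℝ) + 1) ≤ M - 1 := by
      rw [hM]
      have : (0 : ℝ) ≤ C := Nat.cast_nonneg _
      linarith
    have h2 := mul_le_mul_of_nonneg_right this hq0.le
    linarith
  rw [hmass] at hlow hup
  have hlow' : 1 / (2 * (R : ℝ)) ≤ (sp : ℝ) / wt (tp d) := by
    rw [div_le_iff₀ (by positivity)]
    exact hlow
  have hsp0 : 0 ≤ (sp : ℝ) := by
    have h1 : 0 ≤ (sp : ℝ) / wt (tp d) := le_trans (by positivity) hlow'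
    have h2 := mul_nonneg h1 htp0.le
    rwa [div_mul_cancel₀ _ htp0.ne'] at h2
  have hWle : W ≤ wt (tp d) := by
    have h1 : (Q * 6 ^ d : ℝ) ≤ wt (tp d) := by rw [hQ]; exact_mod_cast t3.1
    exact h1
  have r1 : 1 / (2 * (R : ℝ)) ≤ (sp : ℝ) / W :=
    hlow'.trans (div_le_div_of_nonneg_left hsp0 hW0 hWle)
  have r2 : (sp : ℝ) / W ≤ 1 / 2 + q / 2 := by
    rw [div_le_iff₀ hW0]
    rw [div_le_iff₀ htp0] at hup
    have h1 : (wt (tp d) : ℝ) ≤ W + Q := by linarith [(abs_le.1 k3).2]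
    linarith
  have hR4 : 1 / (4 * (R : ℝ)) ≤ 1 / 4 := by
    have : (1 : ℝ) ≤ R := by exact_mod_cast hR
    apply one_div_le_one_div_of_le (by norm_num)
    linarith
  have hR2 : 1 / (2 * (R : ℝ)) = 1 / (4 * (R : ℝ)) + 1 / (4 * (R : ℝ)) := by
    field_simp
    norm_num
  have hfin := hcomp a b P P' ha hb hPl hPl' hP2 hP2'
    (by
      have := (abs_le.1 hrng).2
      rw [← hX]
      linarith)
    (by
      have := (abs_le.1 hrng).1
      rw [← hX]
      linarith)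
  exact absurd hdist (not_lt.2 hfin)

theorem tcn (hStat : StatStmt) (hComp : CompStmt) (hTred : TredStmt) (hTsum : TsumStmt) :
    TcnStmt := by
  intro S R Dc C p hR hp
  obtain ⟨δ, hδ, hcomp⟩ := hComp (3 * Dc) R hR
  have hRpos : (0 : ℝ) < R := by exact_mod_cast hR
  set M : ℝ := 10 * Dc + 2 * C + 3 with hM
  have hM0 : 0 < M := by positivity
  have hlim : Tendsto (fun d : ℕ => M * (2 / 3 : ℝ) ^ d) atTop (𝓝 0) := by
    have := (tendsto_pow_atTop_nhds_zero_of_lt_one (r := (2 / 3 : ℝ)) (by norm_num)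
      (by norm_num)).const_mul M
    simpa using this
  have hmin : 0 < min δ (1 / (4 * (R : ℝ))) := lt_min hδ (by positivity)
  obtain ⟨d₀, hd₀⟩ := (hlim.eventually (gt_mem_nhds hmin)).exists_forall_of_atTop
  refine ⟨max d₀ 1, fun d hd l hl hF => ?_⟩
  have hd1 : 1 ≤ d := (le_max_right _ _).trans hd
  have hq := hd₀ d ((le_max_left _ _).trans hd)
  set q : ℝ := (2 / 3 : ℝ) ^ d with hqdef
  have hq0 : 0 < q := by positivity
  have hq1 : M * q < δ := hq.trans_le (min_le_left _ _)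
  have hq2 : M * q < 1 / (4 * (R : ℝ)) := hq.trans_le (min_le_right _ _)
  obtain ⟨h, χ, hchg, hlow, hup, hmis, hvat⟩ := hF
  have hm : 1 ≤ p * l := Nat.one_le_iff_ne_zero.2 (by positivity)
  exact tcn_aux hStat hTred hTsum S R Dc C hR δ hcomp M hM d hd1 q hqdef hq0 hq1 hq2 (p * l) hm
    h χ hchg hlow hup hmis hvat

end Pool.Agent.Idx.H21
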